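import Pool.Agent.helper91.HZF.Spec

/-! Row HSH of project HZF: hash functions, by counting. -/

set_option autoImplicit false

namespace Pool.Agent.HZF

open Finset Pool.Agent.helper38.Neg Pool.Agent.helper55.NT Pool.Agent.LN

/-- maps with equal values at two places -/
theorem HSH_pair {n B : ℕ} (a b : Fin n) (hab : a ≠ b) :
    (univ.filter fun h : Fin n → Fin B => h a = h b).card * B ≤ B ^ n := by
  have h1 : ((univ.filter fun h : Fin n → Fin B => h a = h b) ×ˢ (univ : Finset (Fin B))).card ≤
      (univ : Finset (Fin n → Fin B)).card := by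
    refine card_le_card_of_injOn (fun p => Function.update p.1 a p.2) (fun _ _ => mem_univ _) ?_
    rintro ⟨h, c⟩ hh ⟨h', c'⟩ hh' he
    have e1 : h a = h b := by
      have := (mem_product.1 (mem_coe.1 hh)).1
      exact (mem_filter.1 this).2
    have e2 : h' a = h' b := by
      have := (mem_product.1 (mem_coe.1 hh')).1
      exact (mem_filter.1 this).2
    have he' : Function.update h a c = Function.update h' a c' := he
    have e3 : ∀ i, i ≠ a → h i = h' i := by
      intro i hi
      have := congrFun he' i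
      rwa [Function.update_of_ne hi, Function.update_of_ne hi] at this
    have e4 : c = c' := by
      have := congrFun he' a
      rwa [Function.update_self, Function.update_self] at this
    refine Prod.ext ?_ e4
    funext i
    by_cases hi : i = a
    · show h i = h' i
      rw [hi, e1, e2]
      exact e3 b hab.symm
    · exact e3 i hi
  rw [card_product, card_univ, card_univ, Fintype.card_fin, Fintype.card_fun, Fintype.card_fin,
    Fintype.card_fin] at h1
  exact h1

open Classical in
/-- maps which are not injective on `S` -/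
theorem HSH_bad {n B k : ℕ} (S : Finset (Fin n)) (hS : S.card ≤ k) :
    (univ.filter fun h : Fin n → Fin B => ¬ Set.InjOn h (S : Set (Fin n))).card * B ≤
      k ^ 2 * B ^ n := by
  have h1 : (univ.filter fun h : Fin n → Fin B => ¬ Set.InjOn h (S : Set (Fin n))) ⊆
      S.offDiag.biUnion fun p => univ.filter fun h : Fin n → Fin B => h p.1 = h p.2 := by
    intro h hh
    have h2 := (mem_filter.1 hh).2
    unfold Set.InjOn at h2
    push Not at h2
    obtain ⟨a, ha, b, hb, hab, hne⟩ := h2
    exact mem_biUnion.2 ⟨(a, b), mem_offDiag.2 ⟨ha, hb, hne⟩, mem_filter.2 ⟨mem_univ _, hab⟩⟩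
  have h2 : (univ.filter fun h : Fin n → Fin B => ¬ Set.InjOn h (S : Set (Fin n))).card ≤
      ∑ p ∈ S.offDiag, (univ.filter fun h : Fin n → Fin B => h p.1 = h p.2).card :=
    (card_le_card h1).trans card_biUnion_le
  calc _ ≤ (∑ p ∈ S.offDiag, (univ.filter fun h : Fin n → Fin B => h p.1 = h p.2).card) * B :=
        Nat.mul_le_mul_right _ h2
    _ = ∑ p ∈ S.offDiag, (univ.filter fun h : Fin n → Fin B => h p.1 = h p.2).card * B := by
        rw [sum_mul]
    _ ≤ ∑ _p ∈ S.offDiag, B ^ n :=
        sum_le_sum fun p hp => HSH_pair p.1 p.2 (mem_offDiag.1 hp).2.2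
    _ = S.offDiag.card * B ^ n := by rw [sum_const, smul_eq_mul]
    _ ≤ k ^ 2 * B ^ n := by
        refine Nat.mul_le_mul_right _ ?_
        rw [offDiag_card]
        have : S.card * S.card ≤ k * k := Nat.mul_le_mul hS hS
        rw [pow_two]
        omega

open Classical in
/-- tuples which are bad for `S` -/
theorem HSH_tuples {n k N : ℕ} (S : Finset (Fin n)) (hS : S.card ≤ k) :
    (univ.filter fun H : Fin N → Fin n → Fin (16 * k ^ 2 + 1) =>
      2 * (univ.filter fun j => Set.InjOn (H j) (S : Set (Fin n))).card ≤ N).card * 2 ^ N ≤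
      ((16 * k ^ 2 + 1) ^ n) ^ N := by
  set B := 16 * k ^ 2 + 1 with hB
  set w : (Fin n → Fin B) → ℕ := fun h => if Set.InjOn h (S : Set (Fin n)) then 1 else 16 with hw
  have h1 : ∑ h, w h ≤ 2 * B ^ n := by
    have h2 : ∀ h, w h = 1 + 15 * (if ¬ Set.InjOn h (S : Set (Fin n)) then 1 else 0) := by
      intro h
      simp only [hw]
      split_ifs <;> simp
    have h3 : ∑ h, w h = B ^ n +
        15 * (univ.filter fun h : Fin n → Fin B => ¬ Set.InjOn h (S : Set (Fin n))).card := by
      rw [sum_congr rfl fun h _ => h2 h, sum_add_distrib, ← mul_sum, ← card_filter]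
      simp
    have h4 := HSH_bad (B := B) S hS
    have h5 : 15 * (univ.filter fun h : Fin n → Fin B => ¬ Set.InjOn h (S : Set (Fin n))).card ≤
        B ^ n := by
      have hB0 : 0 < B := by omega
      refine Nat.le_of_mul_le_mul_right ?_ hB0
      calc 15 * (univ.filter fun h : Fin n → Fin B => ¬ Set.InjOn h (S : Set (Fin n))).card * B
          = 15 * ((univ.filter fun h : Fin n → Fin B =>
            ¬ Set.InjOn h (S : Set (Fin n))).card * B) := by ring
        _ ≤ 15 * (k ^ 2 * B ^ n) := Nat.mul_le_mul_left _ h4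
        _ = (15 * k ^ 2) * B ^ n := by ring
        _ ≤ B * B ^ n := Nat.mul_le_mul_right _ (by omega)
        _ = B ^ n * B := by ring
    rw [h3]
    omega
  have h6 : ∑ H : Fin N → Fin n → Fin B, ∏ j, w (H j) ≤ 2 ^ N * (B ^ n) ^ N := by
    rw [← Fintype.sum_pow, ← mul_pow]
    exact Nat.pow_le_pow_left h1 N
  have h7 : ∀ H : Fin N → Fin n → Fin B,
      2 * (univ.filter fun j => Set.InjOn (H j) (S : Set (Fin n))).card ≤ N →
      4 ^ N ≤ ∏ j, w (H j) := by
    intro H hH
    have h8 : ∏ j, w (H j) =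
        16 ^ (univ.filter fun j => ¬ Set.InjOn (H j) (S : Set (Fin n))).card := by
      simp only [hw]
      rw [prod_ite]
      simp
    have h9 : (univ.filter fun j => Set.InjOn (H j) (S : Set (Fin n))).card +
        (univ.filter fun j => ¬ Set.InjOn (H j) (S : Set (Fin n))).card = N := by
      rw [card_filter_add_card_filter_not]
      simp
    rw [h8]
    have h10 : (16 : ℕ) = 4 ^ 2 := by norm_num
    rw [h10, ← pow_mul]
    exact Nat.pow_le_pow_right (by norm_num) (by omega)
  have h11 : (univ.filter fun H : Fin N → Fin n → Fin B =>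
      2 * (univ.filter fun j => Set.InjOn (H j) (S : Set (Fin n))).card ≤ N).card * 4 ^ N ≤
      ∑ H : Fin N → Fin n → Fin B, ∏ j, w (H j) := by
    rw [← smul_eq_mul, ← sum_const]
    refine (sum_le_sum fun H hH => h7 H (mem_filter.1 hH).2).trans ?_
    exact sum_le_sum_of_subset (filter_subset _ _)
  have h12 := h11.trans h6
  have h13 : (4 : ℕ) ^ N = 2 ^ N * 2 ^ N := by
    rw [← mul_pow]
    norm_num
  rw [h13] at h12
  refine Nat.le_of_mul_le_mul_left ?_ (Nat.two_pow_pos N)
  calc _ = _ := by rw [← mul_assoc, mul_comm (2 ^ N), mul_assoc]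
    _ ≤ _ := h12

theorem HSH (h : CSB_stmt) : HSH_stmt := by
  classical
  intro n k
  by_contra hcon
  push Not at hcon
  set N := (lg n + 1) * k + 1 with hN
  set T := ((16 * k ^ 2 + 1) ^ n) ^ N with hT
  have hT0 : 0 < T := by positivity
  set A := univ.filter fun O : Finset (Fin n) => O.card ≤ k with hA
  have h1 : (univ : Finset (Fin N → Fin n → Fin (16 * k ^ 2 + 1))) ⊆
      A.biUnion fun S => univ.filter fun H : Fin N → Fin n → Fin (16 * k ^ 2 + 1) =>
        2 * (univ.filter fun j => Set.InjOn (H j) (S : Set (Fin n))).card ≤ N := by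
    intro H _
    obtain ⟨S, hS, hS'⟩ := hcon H
    refine mem_biUnion.2 ⟨S, mem_filter.2 ⟨mem_univ _, hS⟩, mem_filter.2 ⟨mem_univ _, ?_⟩⟩
    refine le_trans (Nat.mul_le_mul_left 2 (card_le_card ?_)) hS'
    intro j hj
    exact mem_filter.2 ⟨mem_univ _, (mem_filter.1 hj).2⟩
  have h2 : T ≤ ∑ S ∈ A, (univ.filter fun H : Fin N → Fin n → Fin (16 * k ^ 2 + 1) =>
        2 * (univ.filter fun j => Set.InjOn (H j) (S : Set (Fin n))).card ≤ N).card := by
    refine le_trans (le_of_eq ?_) ((card_le_card h1).trans card_biUnion_le)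
    rw [card_univ, Fintype.card_fun, Fintype.card_fun, Fintype.card_fin, Fintype.card_fin,
      Fintype.card_fin]
  have h3 : T * 2 ^ N ≤ A.card * T := by
    calc T * 2 ^ N ≤ (∑ S ∈ A, (univ.filter fun H : Fin N → Fin n → Fin (16 * k ^ 2 + 1) =>
        2 * (univ.filter fun j => Set.InjOn (H j) (S : Set (Fin n))).card ≤ N).card) * 2 ^ N :=
          Nat.mul_le_mul_right _ h2
      _ = ∑ S ∈ A, (univ.filter fun H : Fin N → Fin n → Fin (16 * k ^ 2 + 1) =>
        2 * (univ.filter fun j => Set.InjOn (H j) (S : Set (Fin n))).card ≤ N).card * 2 ^ N := by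
          rw [sum_mul]
      _ ≤ ∑ _S ∈ A, T := sum_le_sum fun S hS => HSH_tuples S (mem_filter.1 hS).2
      _ = A.card * T := by rw [sum_const, smul_eq_mul]
  have h4 : 2 ^ N ≤ A.card := by
    rw [mul_comm] at h3
    exact Nat.le_of_mul_le_mul_right h3 hT0
  have h5 : A.card ≤ (n + 1) ^ k := h n k
  have h6 : (n + 1) ^ k ≤ 2 ^ ((lg n + 1) * k) := by
    rw [pow_mul]
    exact Nat.pow_le_pow_left (by have := lt_two_pow_lg n; omega) k
  have h7 : 2 ^ ((lg n + 1) * k) < 2 ^ N := Nat.pow_lt_pow_right (by norm_num) (by omega)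
  omega

end Pool.Agent.HZF
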