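import Pool.Agent.helper91.HZF.Spec

/-! Row PWC of project HZF: the cost of the two parity functions. -/

set_option autoImplicit false

namespace Pool.Agent.HZF

open Finset Pool.Agent.helper38.Neg Pool.Agent.helper55.NT Pool.Agent.LN

theorem PWC_par {n : ℕ} (S : Finset (Fin n)) (i : Fin n) (hi : i ∉ S) (x : Fin n → Bool) :
    par (insert i S) x = xor (par S x) (x i) := by
  unfold par
  rw [filter_insert]
  cases hx : x i
  · simp
  · have h1 : i ∉ S.filter fun i => x i = true := fun h => hi (mem_filter.1 h).1
    rw [if_pos rfl, card_insert_of_notMem h1, Bool.xor_true]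
    rcases Nat.mod_two_eq_zero_or_one (S.filter fun i => x i = true).card with h | h
    · have h2 : ((S.filter fun i => x i = true).card + 1) % 2 = 1 := by omega
      simp [h, h2]
    · have h2 : ((S.filter fun i => x i = true).card + 1) % 2 = 0 := by omega
      simp [h, h2]

theorem PWC_par_congr {n : ℕ} (S : Finset (Fin n)) (x y : Fin n → Bool) (h : ∀ i ∈ S, x i = y i) :
    par S x = par S y := by
  unfold par
  have h1 : (S.filter fun i => x i = true) = S.filter fun i => y i = true :=
    filter_congr fun i hi => by rw [h i hi]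
  rw [h1]

theorem PWC_insert {n : ℕ} (S : Finset (Fin n)) (i : Fin n) (hi : i ∉ S) (v : Bool) (r : Rails n) :
    pw (insert i S) v r = ((r i true && pw S (!v) r) || (r i false && pw S v r)) := by
  rw [Bool.eq_iff_iff]
  simp only [pw, Bool.or_eq_true, Bool.and_eq_true, decide_eq_true_eq]
  constructor
  · rintro ⟨x, hx, hp⟩
    rw [PWC_par S i hi] at hp
    cases hxi : x i
    · right
      rw [hxi, Bool.xor_false] at hp
      refine ⟨?_, x, fun j hj => hx j (mem_insert_of_mem hj), hp⟩
      have := hx i (mem_insert_self _ _)
      rwa [hxi] at this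
    · left
      rw [hxi, Bool.xor_true] at hp
      refine ⟨?_, x, fun j hj => hx j (mem_insert_of_mem hj), ?_⟩
      · have := hx i (mem_insert_self _ _)
        rwa [hxi] at this
      · rw [← hp, Bool.not_not]
  · have key : ∀ b : Bool, r i b = true → ∀ x : Fin n → Bool, (∀ j ∈ S, r j (x j) = true) →
        xor (par S x) b = v → ∃ x : Fin n → Bool, (∀ j ∈ insert i S, r j (x j) = true) ∧
          par (insert i S) x = v := by
      intro b hb x hx hp
      refine ⟨Function.update x i b, ?_, ?_⟩
      · intro j hj
        rcases mem_insert.1 hj with rfl | hj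
        · rw [Function.update_self]
          exact hb
        · have hne : j ≠ i := fun h => hi (h ▸ hj)
          rw [Function.update_of_ne hne]
          exact hx j hj
      · rw [PWC_par S i hi, Function.update_self, ← hp,
          PWC_par_congr S (Function.update x i b) x]
        intro j hj
        have hne : j ≠ i := fun h => hi (h ▸ hj)
        rw [Function.update_of_ne hne]
    rintro (⟨hr, x, hx, hp⟩ | ⟨hr, x, hx, hp⟩)
    · refine key true hr x hx ?_
      rw [hp, Bool.xor_true, Bool.not_not]
    · refine key false hr x hx ?_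
      rw [hp, Bool.xor_false]

theorem PWC_empty {n : ℕ} (v : Bool) (r : Rails n) : pw ∅ v r = !v := by
  rw [Bool.eq_iff_iff]
  simp only [pw, decide_eq_true_eq]
  have h : ∀ x : Fin n → Bool, par ∅ x = false := fun x => by simp [par]
  simp only [h]
  cases v
  · simp
  · simp

theorem PWC_step {N : ℕ} {F : Set (Fn N)} {f g : Fn N} (hf : f ∈ F) (hg : g ∈ F) (a b : Fin N) :
    Rel F 3 0 {fun y => (y a && f y) || (y b && g y)} := by
  intro L q hL hF
  have h1 := SL.and hL (Or.inr ⟨a, rfl⟩ : Op L (fun y => y a)) (hF f hf)
  have h2 := SL.and h1 (Or.inr ⟨b, rfl⟩ : Op _ (fun y => y b))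
    ((hF g hg).mono fun _ h => List.mem_cons_of_mem _ h)
  have h3 := SL.or h2 (Or.inl (List.mem_cons_of_mem _ List.mem_cons_self))
    (Or.inl List.mem_cons_self)
  refine ⟨_, q, h3, by omega, by simp, fun f' h => h.mono fun _ h' => ?_, ?_⟩
  · exact List.mem_cons_of_mem _ (List.mem_cons_of_mem _ (List.mem_cons_of_mem _ h'))
  · rintro g' rfl
    exact Or.inl List.mem_cons_self

theorem PWC : PWC_stmt := by
  intro n S
  induction S using Finset.induction_on with
  | empty =>
    have h1 := (Rel.const (n := n + n) ∅ false).union (Rel.const ∅ true)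
    refine h1.mono le_rfl ?_ (by simp) le_rfl
    rintro f (hf | hf)
    · left
      rw [Set.mem_singleton_iff] at hf ⊢
      rw [hf]
      funext y
      rw [PWC_empty]
      rfl
    · right
      rw [Set.mem_singleton_iff] at hf ⊢
      rw [hf]
      funext y
      rw [PWC_empty]
      rfl
  | @insert i S hi ih =>
    have ht : (fun y : Fin (n + n) → Bool => pw S true (rv y)) ∈
        ((∅ : Set (Fn (n + n))) ∪ ({fun y => pw S true (rv y)} ∪ {fun y => pw S false (rv y)})) :=
      Or.inr (Or.inl rfl)
    have hf : (fun y : Fin (n + n) → Bool => pw S false (rv y)) ∈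
        ((∅ : Set (Fn (n + n))) ∪ ({fun y => pw S true (rv y)} ∪ {fun y => pw S false (rv y)})) :=
      Or.inr (Or.inr rfl)
    have h1 := (PWC_step hf ht (rail i true) (rail i false)).union
      (PWC_step ht hf (rail i true) (rail i false))
    refine (ih.trans' h1).mono le_rfl ?_ ?_ le_rfl
    · rintro f (hf' | hf')
      · left
        rw [Set.mem_singleton_iff] at hf' ⊢
        rw [hf']
        funext y
        rw [PWC_insert S i hi]
        rfl
      · right
        rw [Set.mem_singleton_iff] at hf' ⊢
        rw [hf']
        funext y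
        rw [PWC_insert S i hi]
        rfl
    · rw [card_insert_of_notMem hi]
      omega

end Pool.Agent.HZF
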